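import Pool.Agent.U896.AL.C

/-!
# MP_3dbb84_gt, Q1: exact Lagrangian submanifolds of the cotangent bundle of the torus which are
locally one-sided with respect to a Hamiltonian

Q1 asks whether every closed exact Lagrangian submanifold `L` of the cotangent bundle of a closed
manifold `N` is the image of the zero section under a symplectic diffeomorphism. The theorem gives a
local condition on `L` for the torus `N = ℝⁿ/ℤⁿ`, in all dimensions: it is enough that for some smooth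
function `H(q, p)` on the cotangent bundle, with fibre derivative `v = ∂H/∂p`, and some `b, δ > 0` and
`C` the inequalities `⟪q - q', v(z) - v(z')⟫ ≥ -C ‖q - q'‖²` and
`b ‖p - p'‖ ≤ ‖v(z) - v(z')‖ + C ‖q - q'‖` hold for all pairs of points `z = (q, p)`, `z' = (q', p')` of
the preimage of `L` in `ℝⁿ × ℝⁿ` with `‖z - z'‖ < δ`. Nothing is assumed on pairs of points which are
close over the torus and far apart in the cotangent bundle: a priori `L` may have many sheets over
the torus. `L` may have vertical tangencies, and it need not be known to be diffeomorphic to the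
torus.

The method: for small `t` the symplectic diffeomorphism with the generating function `t H` (in mixed
variables, cut off for large `p`) moves `L` to a submanifold `L_t` which is locally a Lipschitz graph
over the torus. The primitive of `p dq` on `L` gives one on `L_t`. If `L_t` had two points over a
point of the torus, then the difference of the primitives on pairs of different points of `L_t` over
the same point would have a maximum, and there the two points would have the same `p`. So `L_t` is a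
graph.
-/

set_option autoImplicit false

open Set Function
open scoped ContDiff RealInnerProductSpace

noncomputable section

namespace Pool.Agent.Results.MP_3dbb84_gt.ExactLocallyOneSided

/-- the integer vector `k` -/
def latt {n : ℕ} (k : Fin n → ℤ) : EuclideanSpace ℝ (Fin n) := WithLp.toLp 2 (fun i => (k i : ℝ))

/-- the symplectic form `dp ∧ dq` of `ℝⁿ × ℝⁿ`; the points and the vectors are pairs `(q, p)` -/
def om {n : ℕ} (a b : EuclideanSpace ℝ (Fin n) × EuclideanSpace ℝ (Fin n)) : ℝ :=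
  ⟪a.2, b.1⟫ - ⟪b.2, a.1⟫

/-- `F : ℝⁿ → ℝⁿ × ℝⁿ` is an injective smooth immersion -/
def IsInjImmersion {n : ℕ}
    (F : EuclideanSpace ℝ (Fin n) → EuclideanSpace ℝ (Fin n) × EuclideanSpace ℝ (Fin n)) : Prop :=
  ContDiff ℝ ∞ F ∧ Injective F ∧ ∀ s v, fderiv ℝ F s v = 0 → v = 0

/-- `F` pulls back `dp ∧ dq` to zero -/
def IsIsotropic {n : ℕ}
    (F : EuclideanSpace ℝ (Fin n) → EuclideanSpace ℝ (Fin n) × EuclideanSpace ℝ (Fin n)) : Prop :=
  ∀ s v w, om (fderiv ℝ F s v) (fderiv ℝ F s w) = 0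

/-- `Λ ⊆ ℝⁿ × ℝⁿ` is the preimage of a nonempty compact Lagrangian submanifold without boundary of
the cotangent bundle `ℝⁿ/ℤⁿ × ℝⁿ` of the torus: it is closed, invariant under the translations
`(q, p) ↦ (q + k, p)`, bounded in `p`, and every point `z` of `Λ` is `F 0` for an injective smooth
immersion `F : ℝⁿ → ℝⁿ × ℝⁿ` which is open as a map to `Λ` and pulls back `dp ∧ dq` to zero. -/
structure IsLagrangianLift (n : ℕ) (Λ : Set (EuclideanSpace ℝ (Fin n) × EuclideanSpace ℝ (Fin n))) :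
    Prop where
  closed : IsClosed Λ
  nonempty : Λ.Nonempty
  per : ∀ z ∈ Λ, ∀ k : Fin n → ℤ, (z.1 + latt k, z.2) ∈ Λ
  bdd : ∃ R : ℝ, ∀ z ∈ Λ, ‖z.2‖ ≤ R
  par : ∀ z ∈ Λ, ∃ F : EuclideanSpace ℝ (Fin n) →
      EuclideanSpace ℝ (Fin n) × EuclideanSpace ℝ (Fin n),
    F 0 = z ∧ IsInjImmersion F ∧ IsIsotropic F ∧
    ∀ V : Set (EuclideanSpace ℝ (Fin n)), IsOpen V → ∃ U, IsOpen U ∧ F '' V = Λ ∩ U

/-- The submanifold is exact: `p dq` has a primitive `S` on it, a continuous function on `Λ` which is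
invariant under the translations by integer vectors such that for every smooth map `F` to `ℝⁿ × ℝⁿ`
with values in `Λ` the derivative of `S ∘ F` is the pullback of `p dq`. -/
def IsExact {n : ℕ} (Λ : Set (EuclideanSpace ℝ (Fin n) × EuclideanSpace ℝ (Fin n))) : Prop :=
  ∃ S : EuclideanSpace ℝ (Fin n) × EuclideanSpace ℝ (Fin n) → ℝ, ContinuousOn S Λ ∧
    (∀ z ∈ Λ, ∀ k : Fin n → ℤ, S (z.1 + latt k, z.2) = S z) ∧
    ∀ F : EuclideanSpace ℝ (Fin n) → EuclideanSpace ℝ (Fin n) × EuclideanSpace ℝ (Fin n),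
      ContDiff ℝ ∞ F → (∀ s, F s ∈ Λ) → ∀ s, DifferentiableAt ℝ (fun s => S (F s)) s ∧
        ∀ v, fderiv ℝ (fun s => S (F s)) s v = ⟪(F s).2, (fderiv ℝ F s v).1⟫

/-- `H` is a smooth function on the cotangent bundle of the torus -/
def IsHamiltonian {n : ℕ} (H : EuclideanSpace ℝ (Fin n) × EuclideanSpace ℝ (Fin n) → ℝ) : Prop :=
  ContDiff ℝ ∞ H ∧ ∀ z, ∀ k : Fin n → ℤ, H (z.1 + latt k, z.2) = H z

/-- the fibre derivative `∂H/∂p` (a vector of `ℝⁿ`) -/
def velocity {n : ℕ} (H : EuclideanSpace ℝ (Fin n) × EuclideanSpace ℝ (Fin n) → ℝ)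
    (z : EuclideanSpace ℝ (Fin n) × EuclideanSpace ℝ (Fin n)) : EuclideanSpace ℝ (Fin n) :=
  (InnerProductSpace.toDual ℝ (EuclideanSpace ℝ (Fin n))).symm
    ((fderiv ℝ H z).comp (ContinuousLinearMap.inr ℝ _ _))

/-- the local one-sided condition on `Λ` with respect to `H` -/
def IsLocallyOneSided {n : ℕ} (Λ : Set (EuclideanSpace ℝ (Fin n) × EuclideanSpace ℝ (Fin n)))
    (H : EuclideanSpace ℝ (Fin n) × EuclideanSpace ℝ (Fin n) → ℝ) : Prop :=
  ∃ C b δ : ℝ, 0 < b ∧ 0 < δ ∧ ∀ z ∈ Λ, ∀ z' ∈ Λ, ‖z - z'‖ < δ →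
    -C * ‖z.1 - z'.1‖ ^ 2 ≤ ⟪z.1 - z'.1, velocity H z - velocity H z'⟫ ∧
    b * ‖z.2 - z'.2‖ ≤ ‖velocity H z - velocity H z'‖ + C * ‖z.1 - z'.1‖

/-- `ψ` and its inverse are smooth -/
def IsSmoothDiffeo {n : ℕ} (ψ : EuclideanSpace ℝ (Fin n) × EuclideanSpace ℝ (Fin n) ≃
    EuclideanSpace ℝ (Fin n) × EuclideanSpace ℝ (Fin n)) : Prop :=
  ContDiff ℝ ∞ ψ ∧ ContDiff ℝ ∞ ψ.symm

/-- `ψ` preserves the symplectic form -/
def PreservesForm {n : ℕ} (ψ : EuclideanSpace ℝ (Fin n) × EuclideanSpace ℝ (Fin n) ≃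
    EuclideanSpace ℝ (Fin n) × EuclideanSpace ℝ (Fin n)) : Prop :=
  ∀ z a b, om (fderiv ℝ ψ z a) (fderiv ℝ ψ z b) = om a b

/-- Closed exact Lagrangian submanifolds of the cotangent bundle of the torus which are locally
one-sided with respect to a smooth function `H(q, p)` are images of the zero section under
symplectic diffeomorphisms. -/
theorem result (n : ℕ) (Λ : Set (EuclideanSpace ℝ (Fin n) × EuclideanSpace ℝ (Fin n)))
    (hΛ : IsLagrangianLift n Λ) (hE : IsExact Λ)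
    (H : EuclideanSpace ℝ (Fin n) × EuclideanSpace ℝ (Fin n) → ℝ) (hH : IsHamiltonian H)
    (hC : IsLocallyOneSided Λ H) :
    ∃ ψ : EuclideanSpace ℝ (Fin n) × EuclideanSpace ℝ (Fin n) ≃
        EuclideanSpace ℝ (Fin n) × EuclideanSpace ℝ (Fin n),
      IsSmoothDiffeo ψ ∧ PreservesForm ψ ∧
      (∀ z k, ψ (z.1 + latt k, z.2) = ((ψ z).1 + latt k, (ψ z).2)) ∧
      ψ '' {z | z.2 = 0} = Λ := by
  obtain ⟨C, b, δ, hb, hδ, hC⟩ := hC
  obtain ⟨S, S1, S2, S3⟩ := hE
  have hL : Pool.Agent.Y522.ML.LagT n Λ :=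
    ⟨hΛ.closed, hΛ.nonempty, hΛ.per, hΛ.bdd, fun z hz => by
      obtain ⟨F, f1, ⟨f2, f3, f4⟩, f5, f6⟩ := hΛ.par z hz
      exact ⟨F, f2, f1, f3, f6, f4, f5⟩⟩
  have hP : Pool.Agent.U896.AL.Prim Λ S :=
    ⟨S1, S2, fun F hF hm s => ⟨_, (S3 F hF hm s).1.hasFDerivAt, (S3 F hF hm s).2⟩⟩
  obtain ⟨ψ, h1, h2, h3, h4, h5⟩ := Pool.Agent.U896.AL.final hL hP H hH.1 hH.2 (velocity H)
    (fun z _ a => by
      rw [velocity, InnerProductSpace.toDual_symm_apply]
      simp) hb hδ hC
  exact ⟨ψ, ⟨h1, h2⟩, h4, h3, h5⟩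

end Pool.Agent.Results.MP_3dbb84_gt.ExactLocallyOneSided
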