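import Pool.Agent.U145.ML.Non
import Pool.Agent.Results.MP_3dbb84_gt.LocallyOneSidedLagrangians

/-!
# MP_3dbb84_gt, Q1: Lagrangian submanifolds of the cotangent bundle of the torus which are one-sided
with respect to the fibre derivative of a Hamiltonian

Q1 asks whether every closed exact Lagrangian submanifold `L` of the cotangent bundle of a closed
manifold `N` is the image of the zero section under a symplectic diffeomorphism. For the torus
`N = ℝⁿ/ℤⁿ`, in all dimensions, we show that this holds if for some smooth function `K(q, p)` on the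
cotangent bundle, with fibre derivative `k = ∂K/∂p`, and some `b, δ > 0` and `C` the inequalities
`⟪q - q', k(q, p) - k(q, p')⟫ ≥ -C ‖q - q'‖²` and
`b ‖p - p'‖ ≤ ‖k(q, p) - k(q, p')‖ + C ‖q - q'‖` hold for all pairs of points `(q, p)`, `(q', p')`
of the preimage of `L` in `ℝⁿ × ℝⁿ` with `‖q - q'‖ < δ`. The starting theorem
`LocallyOneSidedLagrangians` is the case of the functions `K = ⟪B(q) p, p⟫ / 2` which are quadratic in
`p`; here the symmetric matrix `∂²K/∂p²` may also depend on `p`, so that the vertical parts of `L`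
over one point `q` may be unfolded in directions which change along the fibre. `L` need not be exact,
a graph or known to be diffeomorphic to the torus.
-/

set_option autoImplicit false

open Set Function
open scoped ContDiff RealInnerProductSpace

noncomputable section

namespace Pool.Agent.Results.MP_3dbb84_gt.HamiltonianOneSided

open Pool.Agent.Results.MP_3dbb84_gt.LocallyOneSidedLagrangians

/-- `K` is a smooth function on the cotangent bundle `ℝⁿ/ℤⁿ × ℝⁿ` of the torus (lifted to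
`ℝⁿ × ℝⁿ`) -/
structure IsHamiltonian {n : ℕ}
    (K : EuclideanSpace ℝ (Fin n) × EuclideanSpace ℝ (Fin n) → ℝ) : Prop where
  smooth : ContDiff ℝ ∞ K
  per : ∀ w, ∀ m : Fin n → ℤ, K (w.1 + latt m, w.2) = K w

/-- `k` is the derivative of `K` along the fibres, `k = ∂K/∂p` -/
def IsFibreDerivative {n : ℕ}
    (K : EuclideanSpace ℝ (Fin n) × EuclideanSpace ℝ (Fin n) → ℝ)
    (k : EuclideanSpace ℝ (Fin n) × EuclideanSpace ℝ (Fin n) → EuclideanSpace ℝ (Fin n)) : Prop :=
  ∀ w a, ⟪k w, a⟫ = fderiv ℝ K w (0, a)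

/-- the one-sided condition on `Λ` with respect to the map `k` -/
def IsOneSidedFor {n : ℕ} (Λ : Set (EuclideanSpace ℝ (Fin n) × EuclideanSpace ℝ (Fin n)))
    (k : EuclideanSpace ℝ (Fin n) × EuclideanSpace ℝ (Fin n) → EuclideanSpace ℝ (Fin n)) : Prop :=
  ∃ C b δ : ℝ, 0 < b ∧ 0 < δ ∧ ∀ z ∈ Λ, ∀ z' ∈ Λ, ‖z.1 - z'.1‖ < δ →
    -C * ‖z.1 - z'.1‖ ^ 2 ≤ ⟪z.1 - z'.1, k (z.1, z.2) - k (z.1, z'.2)⟫ ∧
    b * ‖z.2 - z'.2‖ ≤ ‖k (z.1, z.2) - k (z.1, z'.2)‖ + C * ‖z.1 - z'.1‖

/-- Closed Lagrangian submanifolds of the cotangent bundle of the torus which are one-sided with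
respect to the fibre derivative of a smooth function are images of the zero section under symplectic
diffeomorphisms. -/
theorem result (n : ℕ) (Λ : Set (EuclideanSpace ℝ (Fin n) × EuclideanSpace ℝ (Fin n)))
    (hΛ : IsLagrangianLift n Λ)
    (K : EuclideanSpace ℝ (Fin n) × EuclideanSpace ℝ (Fin n) → ℝ) (hK : IsHamiltonian K)
    (k : EuclideanSpace ℝ (Fin n) × EuclideanSpace ℝ (Fin n) → EuclideanSpace ℝ (Fin n))
    (hk : IsFibreDerivative K k) (hC : IsOneSidedFor Λ k) :
    ∃ ψ : EuclideanSpace ℝ (Fin n) × EuclideanSpace ℝ (Fin n) ≃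
        EuclideanSpace ℝ (Fin n) × EuclideanSpace ℝ (Fin n),
      IsSmoothDiffeo ψ ∧ PreservesForm ψ ∧
      (∀ z m, ψ (z.1 + latt m, z.2) = ((ψ z).1 + latt m, (ψ z).2)) ∧
      ψ '' {z | z.2 = 0} = Λ := by
  obtain ⟨C, b, δ, hb, hδ, hC⟩ := hC
  obtain ⟨ψ, h1, h2, h3, h4, h5⟩ := Pool.Agent.U145.ML.nonlin
    ⟨hΛ.closed, hΛ.nonempty, hΛ.per, hΛ.bdd, fun z hz => by
      obtain ⟨F, f1, ⟨f2, f3, f4⟩, f5, f6⟩ := hΛ.par z hz
      exact ⟨F, f2, f1, f3, f6, f4, f5⟩⟩ K hK.smooth hK.per k hk hb hδ hC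
  exact ⟨ψ, ⟨h1, h2⟩, h4, h3, h5⟩

end Pool.Agent.Results.MP_3dbb84_gt.HamiltonianOneSided
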